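import Pool.Agent.H10.NV1

namespace Pool.Agent.Results.MP_606b74_al.No

open Pool.Agent.H10.NV Matrix MatrixGroups

instance : Fact (Nat.Prime 5) := ⟨by norm_num⟩

abbrev F := ZMod 5
abbrev V := Fin 7 → F

def D : Dat F (V × V) (Matrix (Fin 7) (Fin 7) F × F) V where
  mu := LinearMap.mk₂ F
    (fun p q => (vecMulVec p.1 q.2 + vecMulVec q.1 p.2, p.2 ⬝ᵥ q.2))
    (fun a b c => by
      ext i j <;> simp [vecMulVec_apply, add_dotProduct]; ring)
    (fun c a b => by
      ext i j <;> simp [vecMulVec_apply, smul_dotProduct] <;> ring)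
    (fun a b c => by
      ext i j <;> simp [vecMulVec_apply, dotProduct_add]; ring)
    (fun c a b => by
      ext i j <;> simp [vecMulVec_apply, dotProduct_smul] <;> ring)
  nu := LinearMap.mk₂ F
    (fun t q => t.1 *ᵥ q.2 + t.2 • q.1)
    (fun a b c => by simp only [Prod.fst_add, Prod.snd_add, add_mulVec]; module)
    (fun c a b => by simp only [Prod.smul_fst, Prod.smul_snd, smul_mulVec, smul_eq_mul]; module)
    (fun a b c => by simp only [Prod.fst_add, Prod.snd_add, mulVec_add]; module)
    (fun c a b => by simp only [Prod.smul_fst, Prod.smul_snd, mulVec_smul]; module)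
  mu_comm := fun a b => by
    simp only [LinearMap.mk₂_apply, add_comm, dotProduct_comm]
  nu_comm := fun a b c => by
    simp only [LinearMap.mk₂_apply, add_mulVec, vecMulVec_mulVec, op_smul_eq_smul,
      dotProduct_comm]
    module

theorem faithful (t : Matrix (Fin 7) (Fin 7) F × F) (h : ∀ a, D.nu t a = 0) : t = 0 := by
  refine Prod.ext ?_ ?_
  · ext i j
    have := congrFun (h (0, Pi.single j 1)) i
    simpa [D] using this
  · have := congrFun (h (Pi.single 0 1, 0)) 0
    simpa [D] using this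

theorem spans (S : AddSubgroup (Matrix (Fin 7) (Fin 7) F × F)) (h : ∀ a b, D.mu a b ∈ S) :
    S = ⊤ := by
  rw [eq_top_iff]
  rintro ⟨M, s⟩ _
  have h1 : ((0, s) : Matrix (Fin 7) (Fin 7) F × F) ∈ S := by
    have := h (0, Pi.single 0 s) (0, Pi.single 0 1)
    simpa [D] using this
  have h2 : ∀ j, ((vecMulVec (fun i => M i j) (Pi.single j 1), 0) :
      Matrix (Fin 7) (Fin 7) F × F) ∈ S := fun j => by
    have := h (fun i => M i j, 0) (0, Pi.single j 1)
    simpa [D] using this
  have h3 := S.add_mem (S.sum_mem fun j (_ : j ∈ Finset.univ) => h2 j) h1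
  convert h3 using 1
  ext i j
  · simp [Prod.fst_sum, Matrix.sum_apply, vecMulVec_apply, Pi.single_apply]
  · simp [Prod.snd_sum]

theorem cardT : Nat.card (Matrix (Fin 7) (Fin 7) F × F) = 5 ^ 50 := by
  rw [Nat.card_prod, Matrix, Nat.card_fun, Nat.card_fun, Nat.card_zmod]
  simp

theorem cardG : Nat.card (G D) ≤ 5 ^ 96 := by
  have h1 : Nat.card SL(2, F) ≤ 5 ^ 4 := by
    refine (Nat.card_le_card_of_injective (fun h : SL(2, F) => h.1) Subtype.val_injective).trans ?_
    rw [Matrix, Nat.card_fun, Nat.card_fun, Nat.card_zmod]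
    simp
  have hV : Nat.card V = 5 ^ 7 := by
    rw [Nat.card_fun, Nat.card_zmod]; simp
  rw [Nat.card_congr SemidirectProduct.equivProd, Nat.card_prod, Nat.card_congr (eqv D)]
  simp only [Nat.card_prod, hV] at h1 ⊢
  have h2 := cardT
  rw [Nat.card_prod] at h2
  rw [h2]
  calc _ ≤ 5 ^ 7 * 5 ^ 7 * (5 ^ 7 * 5 ^ 7 * (5 ^ 50 * (5 ^ 7 * 5 ^ 7))) * 5 ^ 4 :=
        Nat.mul_le_mul_left _ h1
    _ = 5 ^ 96 := by norm_num

theorem result : ∃ (G : Type) (_ : Group G) (_ : Finite G),
    commutator G = ⊤ ∧ Subgroup.center G = ⊥ ∧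
      ∀ x : G, (Set.ncard {y : G | ∃ g : G, y = g * x * g⁻¹}) ^ 2 < Nat.card G := by
  haveI : Finite (P D) := Finite.of_equiv _ (eqv D).symm
  haveI hfin : Finite (G D) := Finite.of_equiv _ SemidirectProduct.equivProd.symm
  refine ⟨G D, inferInstance, hfin,
    perfect (by decide) (a := 2) (by decide) (by decide) spans,
    center_bot (by decide) (by decide) faithful, fun x => ?_⟩
  have h1 := card_cent x
  rw [cardT] at h1
  have h2 := (Subgroup.centralizer {x}).card_mul_index
  have h3 : Set.ncard {y : G D | ∃ g, y = g * x * g⁻¹} ≤ (Subgroup.centralizer {x}).index := by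
    let f : G D ⧸ Subgroup.centralizer {x} → G D := Quotient.lift (fun g => g * x * g⁻¹) (by
      intro a b hab
      have h := QuotientGroup.leftRel_apply.1 hab
      rw [Subgroup.mem_centralizer_singleton_iff] at h
      calc a * x * a⁻¹ = a * (x * (a⁻¹ * b)) * b⁻¹ := by group
        _ = b * x * b⁻¹ := by rw [← h]; group)
    have : {y : G D | ∃ g, y = g * x * g⁻¹} = f '' Set.univ := by
      ext y
      constructor
      · rintro ⟨g, rfl⟩; exact ⟨(g : _ ⧸ _), trivial, rfl⟩
      · rintro ⟨q, -, rfl⟩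
        obtain ⟨g, rfl⟩ := QuotientGroup.mk_surjective q
        exact ⟨g, rfl⟩
    rw [this]
    exact (Set.ncard_image_le).trans (Set.ncard_univ _).le
  have h4 := cardG
  have h5 : 0 < (Subgroup.centralizer {x}).index := Nat.pos_of_ne_zero Subgroup.index_ne_zero_of_finite
  generalize Set.ncard {y : G D | ∃ g, y = g * x * g⁻¹} = c at *
  generalize (Subgroup.centralizer {x}).index = i at *
  generalize Nat.card (Subgroup.centralizer {x}) = k at *
  generalize Nat.card (G D) = N at *
  have h6 : i < k := by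
    by_contra h
    have : 5 ^ 50 * 5 ^ 50 ≤ k * i := Nat.mul_le_mul h1 (h1.trans (not_lt.1 h))
    rw [h2] at this
    have := this.trans h4
    norm_num at this
  calc c ^ 2 ≤ i * i := by rw [sq]; exact Nat.mul_le_mul h3 h3
    _ < k * i := Nat.mul_lt_mul_of_pos_right h6 h5
    _ = N := h2

end Pool.Agent.Results.MP_606b74_al.No
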